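import Pool.Agent.H71.PX.Targets

/-!
# MP_64fb07_lc, row HA: tile systems and the prefix AEA
-/

set_option autoImplicit false

namespace Pool.Agent.H38.PX.HA

open Pool.Agent.H71.PX Pool.Agent.H8.PL

theorem pf_HA (a1 : T_A1) (a2 : T_A2) (qa : T_QA) (en : T_EN) : T_HA := by
  intro Q _ U Hh Vv
  obtain ⟨e, he⟩ := Countable.exists_injective_nat Q
  obtain ⟨φ, hV, hB, hS⟩ := qa Q e U Hh Vv
  refine ⟨φ, hV, hB, fun n => ?_⟩
  have key : ∀ (R : ℕ → List (Fin n) → Prop) (v : ℕ → Fin n),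
      (Pre R φ [true, false, true] 0 v ↔ ∀ x, ∃ y, ∀ z, Oa (deca e R) U Hh Vv x y z) := by
    intro R v
    simp only [Pre, hS]
    simp [Function.update]
  constructor
  · rintro ⟨hn, R, hR⟩
    have : NeZero n := ⟨hn.ne'⟩
    exact ⟨hn, a1 Q U Hh Vv n (deca e R) hn ((key R fun _ => 0).1 (hR _))⟩
  · rintro ⟨hn, t, ht⟩
    obtain ⟨m, hm⟩ := a2 Q U Hh Vv n t hn ht
    obtain ⟨R, hR⟩ := (en (Fin n) Q e he).2 m
    refine ⟨hn, R, fun v => (key R v).2 ?_⟩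
    rw [hR]
    exact hm

end Pool.Agent.H38.PX.HA
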