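import Pool.Agent.H71.PX.Targets2
import Pool.Agent.H59.PX.HS

/-!
# MP_64fb07_lc, row NC: one sentence for every hard prefix
-/

set_option autoImplicit false

namespace Pool.Agent.H38.PX.NC

open Pool.Agent.H71.PX Pool.Agent.H69.Sp Pool.Agent.H8.PL Pool.Agent.H8.JS Pool.Agent.H8.UN

theorem pf_NC (he : T_HE) (ha : T_HA) (em : T_EM) (cm : T_CM) (sp : T_SP) : T_NC := by
  intro π hπ
  obtain ⟨φ, r, hV, hB, hr, h⟩ := Pool.Agent.H59.PX.HS.pf_HS he ha em cm π hπ X0 pf_xs
  have hC : Pool.Agent.H51.UN.Complete (Spec π φ) :=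
    Pool.Agent.H51.UN.complete_of n_ur n_re _ (fun n => 1 * n ^ r) (Polynomial.X ^ r)
      (sp π φ hV) (fun n _ => by simp) (fun n _ => by
        simpa using Nat.le_self_pow hr.ne' n)
      (fun X hX => ge4 Pool.Agent.H19.UN.pf_f4 _ X
        (Pool.Agent.H84.TW.pf_pb X hX 1 r (by omega) hr))
      (fun n hn => by
        simpa using h n (by omega))
  have h2 := ne_of _ hC
  exact ⟨φ, hV, hB, h2.1, h2.2, (j_jc _).symm.trans h2.2⟩

end Pool.Agent.H38.PX.NC
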