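import Pool.Agent.H71.PX.Targets

/-!
# MP_64fb07_lc, row QU: the universal axioms are given by a quantifier-free formula
-/

set_option autoImplicit false

namespace Pool.Agent.H38.PX.QU

open Pool.Agent.H71.PX

theorem r1x (k : ℕ) : QD (fun _ R x _ _ => R k [x]) :=
  (QD.r1 k 0 (by norm_num)).congr fun _ _ _ _ _ => by simp [pk]

theorem r1y (k : ℕ) : QD (fun _ R _ y _ => R k [y]) :=
  (QD.r1 k 1 (by norm_num)).congr fun _ _ _ _ _ => by simp [pk]

theorem r2xy (k : ℕ) : QD (fun _ R x y _ => R k [x, y]) :=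
  (QD.r2 k 0 1 (by norm_num) (by norm_num)).congr fun _ _ _ _ _ => by simp [pk]

theorem r2yx (k : ℕ) : QD (fun _ R x y _ => R k [y, x]) :=
  (QD.r2 k 1 0 (by norm_num) (by norm_num)).congr fun _ _ _ _ _ => by simp [pk]

theorem r2xx (k : ℕ) : QD (fun _ R x _ _ => R k [x, x]) :=
  (QD.r2 k 0 0 (by norm_num) (by norm_num)).congr fun _ _ _ _ _ => by simp [pk]

theorem exy : QD (fun _ _ x y _ => x = y) :=
  (QD.eq 0 1 (by norm_num) (by norm_num)).congr fun _ _ _ _ _ => by simp [pk]

theorem pf_QU : T_QU := by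
  intro Q _ e U Hh Vv
  unfold Un UnN UnP UnC St.cl dec
  dsimp only
  repeat' first
    | exact QD.const _
    | exact r1x _
    | exact r1y _
    | exact r2xy _
    | exact r2yx _
    | exact r2xx _
    | exact exy
    | apply QD.and
    | apply QD.iff
    | apply QD.or
    | apply QD.not
    | apply QD.imp
    | (apply QD.ex; intro _)
    | (apply QD.all; intro _)

end Pool.Agent.H38.PX.QU
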